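import Pool.Graph.R_pool_sql_team_seeded_843ab51a.H269.MEP.Final

set_option autoImplicit false

/-!
# MP_8e5830_lc: evaluating the Morse ensemble polynomial at the point (1, -1, 1) is `#P`-hard

The value at one point is much less than the list of all coefficients: it is one integer, and it is
determined by the coefficients in polynomial time.  Up to the sign, `ME_K(1, -1, 1)` is the reduced
Euler characteristic of the complex of acyclic matchings (the discrete Morse complex) of `K`.

The complexes `KK A` and the identity `|ME (KK A) (1, -1, 1)| = 2 ^ n * per A` are those of an earlier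
run (`H269.MEP`), where they are used for an oracle that returns the whole polynomial.
-/

namespace Pool.Agent.Results.MP_8e5830_lc.OnePoint

open Pool.Agent.NPC Pool.Agent.NPC.Cnt Pool.Agent.H269.MEP Pool.Agent.NPC.H549NRed
open Pool.Agent.NPC.ME269
open Pool.Agent.H549R2.Convex (ent F)
open Pool.Agent.NPC.H549Convex (LL)

/-- The value of the Morse ensemble polynomial of the complex with the simplices listed in `K`, of
dimension at most two, at the point `(z₀, z₁, z₂)`: the sum of `z₀ ^ c₀(M) * z₁ ^ c₁(M) * z₂ ^ c₂(M)`
over all acyclic matchings `M`, where `cᵢ(M)` is the number of critical `i`-simplices. -/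
noncomputable def value (K : List (List ℕ)) (z₀ z₁ z₂ : ℤ) : ℤ :=
  ∑ M ∈ matchings (cells K),
    z₀ ^ crit (cells K) M 0 * z₁ ^ crit (cells K) M 1 * z₂ ^ crit (cells K) M 2

open Classical in
/-- The Euler characteristic of the complex of acyclic matchings (the discrete Morse complex), whose
simplices are the nonempty acyclic matchings; a matching with `k` pairs has dimension `k - 1`. -/
noncomputable def morseEuler (K : List (List ℕ)) : ℤ :=
  ∑ M ∈ (matchings (cells K)).filter (fun M => M ≠ ∅), (-1) ^ (M.card - 1)

open Classical in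
/-- The absolute value of `ME_K(1, -1, 1)` for the list `K` of all simplices of a complex of dimension
at most two, and `0` for other lists. -/
noncomputable def absAt (K : List (List ℕ)) : ℕ :=
  if IsComplex K then (value K 1 (-1) 1).natAbs else 0

theorem value_eq (K : List (List ℕ)) :
    value K 1 (-1) 1 = ∑ M ∈ matchings (cells K), (-1 : ℤ) ^ (crit (cells K) M 1) := by
  unfold value
  refine Finset.sum_congr rfl fun M _ => ?_
  rw [one_pow, one_pow, one_mul, mul_one]

theorem absAt_eq {K : List (List ℕ)} (hK : IsComplex K) : absAt K = sgs (ME K) := by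
  have h : ((absAt K : ℕ) : ℤ) = ((sgs (ME K) : ℕ) : ℤ) := by
    unfold absAt
    rw [if_pos hK, Int.natCast_natAbs, value_eq, sgs_ME]
  exact_mod_cast h

theorem arrow_empty {C : Finset (Finset ℕ)} {x y : Finset ℕ} (h : Arrow C ∅ x y) : y ⊂ x := by
  rcases h with ⟨h, _⟩ | h
  · exact h.2.2.1
  · simp at h

theorem trans_empty {C : Finset (Finset ℕ)} {x y : Finset ℕ}
    (h : Relation.TransGen (Arrow C ∅) x y) : y ⊂ x := by
  induction h with
  | single h => exact arrow_empty h
  | tail _ h ih => exact (arrow_empty h).trans ih

theorem empty_mem (C : Finset (Finset ℕ)) : ∅ ∈ matchings C := by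
  classical
  unfold matchings
  rw [Finset.mem_filter]
  refine ⟨Finset.mem_powerset.2 (Finset.empty_subset _), ⟨?_, ?_⟩, ?_⟩
  · intro p hp
    simp at hp
  · intro p hp
    simp at hp
  · intro x hx
    exact (ssubset_irrefl x) (trans_empty hx)

theorem sum_card (K : List (List ℕ)) :
    ∑ M ∈ matchings (cells K), (-1 : ℤ) ^ M.card = 1 - morseEuler K := by
  classical
  have h1 := Finset.sum_filter_add_sum_filter_not (matchings (cells K)) (fun M => M ≠ ∅)
    (fun M => (-1 : ℤ) ^ M.card)
  have h2 : (matchings (cells K)).filter (fun M => ¬ M ≠ ∅) = {∅} := by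
    ext M
    rw [Finset.mem_filter, Finset.mem_singleton]
    constructor
    · rintro ⟨_, h⟩
      exact not_not.1 h
    · rintro rfl
      exact ⟨empty_mem _, fun h => h rfl⟩
  have h3 : ∑ M ∈ (matchings (cells K)).filter (fun M => M ≠ ∅), (-1 : ℤ) ^ M.card =
      - morseEuler K := by
    unfold morseEuler
    rw [← Finset.sum_neg_distrib]
    refine Finset.sum_congr (by congr) fun M hM => ?_
    have h4 : M ≠ ∅ := (Finset.mem_filter.1 hM).2
    have h5 : 0 < M.card := Finset.card_pos.2 (Finset.nonempty_iff_ne_empty.2 h4)
    obtain ⟨k, hk⟩ : ∃ k, M.card = k + 1 := ⟨M.card - 1, by omega⟩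
    rw [hk, Nat.add_sub_cancel, pow_succ]
    ring
  rw [h2, h3, Finset.sum_singleton, Finset.card_empty, pow_zero] at h1
  linarith

theorem nred_abs : NRed (fun _ : LL => True) F IsComplex absAt := by
  refine ⟨fun A => [KK A], fun p => bif sqB p.1 then
    (p.2.getD 0 0) / 2 ^ p.1.length else 0, ?_, ?_, ?_⟩
  · exact Poly.cons KK_poly (NPC.Poly.const [])
  · have h1 : Poly (fun p : LL × List ℕ => sqB p.1) := by
      unfold sqB
      fun_prop
    have h2 : Poly (fun p : LL × List ℕ => p.2.getD 0 0) :=
      Poly.getD (Poly.snd Poly.id) (NPC.Poly.const 0) (NPC.Poly.const 0)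
    have h3 : Poly (fun p : LL × List ℕ => 2 ^ p.1.length) :=
      Med.poly_two_pow (UPoly.length (Poly.fst Poly.id))
    exact Poly.cond h1 (Poly.div h2 h3) (NPC.Poly.const 0)
  · intro A _
    refine ⟨fun b hb => ?_, ?_⟩
    · rw [List.mem_singleton] at hb
      rw [hb]
      exact KK_complex A
    · simp only [List.map_cons, List.map_nil, List.getD_cons_zero]
      cases h : sqB A with
      | true =>
        rw [cond_true, absAt_eq (KK_complex A), sgs_KK A ((sqB_iff A).1 h),
          Nat.mul_div_cancel_left _ (by positivity)]
      | false =>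
        have h1 : ¬ ∀ r ∈ A, r.length = A.length := by
          rw [← sqB_iff, h]
          simp
        rw [cond_false, F, if_neg h1]

theorem absAt_le (K : List (List ℕ)) :
    absAt K ≤ 2 ^ ((cells K).card * (cells K).card) := by
  classical
  unfold absAt
  split_ifs with hK
  · have h1 : |value K 1 (-1) 1| ≤ ((matchings (cells K)).card : ℤ) := by
      rw [value_eq]
      refine (Finset.abs_sum_le_sum_abs _ _).trans ?_
      simp
    have h2 : (matchings (cells K)).card ≤ 2 ^ ((cells K).card * (cells K).card) := by
      unfold matchings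
      refine (Finset.card_filter_le _ _).trans ?_
      rw [Finset.card_powerset, Finset.card_product]
    have h3 : (((value K 1 (-1) 1).natAbs : ℕ) : ℤ) ≤ ((matchings (cells K)).card : ℤ) := by
      rw [Int.natCast_natAbs]
      exact h1
    have h4 : (value K 1 (-1) 1).natAbs ≤ (matchings (cells K)).card := by exact_mod_cast h3
    exact h4.trans h2
  · exact Nat.zero_le _

theorem absAt_size (K : List (List ℕ)) :
    (absAt K).size ≤ (Polynomial.X * Polynomial.X + 1 : Polynomial ℕ).eval (sz K) := by
  have h1 := absAt_le K
  have h2 : (absAt K).size ≤ (cells K).card * (cells K).card + 1 := by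
    rw [Nat.size_le]
    refine lt_of_le_of_lt h1 (Nat.pow_lt_pow_right (by norm_num) (by omega))
  have h3 := cells_card_le K
  have h4 := length_lt_sz K
  have h5 : (cells K).card ≤ sz K := by omega
  have h6 := Nat.mul_le_mul h5 h5
  simp only [Polynomial.eval_add, Polynomial.eval_mul, Polynomial.eval_X, Polynomial.eval_one]
  omega

/-- **Evaluating the Morse ensemble polynomial at one point is `#P`-hard.** For simplicial complexes
`K` of dimension at most two (given by the list of all their simplices), computing the absolute value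
of the single integer `ME_K(1, -1, 1)` is `#P`-hard under polynomial-time Turing reductions.  This
integer is obtained in polynomial time from the list `ME K` of all monomials and their coefficients
(so computing `ME_K` is `#P`-hard), and `|ME_K(1, -1, 1)| = |χ - 1|`, where `χ` is the Euler
characteristic of the complex of acyclic matchings of `K`. -/
theorem result : SharpPHard (strFn absAt) ∧ SharpPHard (strFn answer) ∧
    (∃ D : List Bool → List Bool, PolyTime D ∧ ∀ K : List (List ℕ), IsComplex K →
      D (bits (ME K)) = bits (absAt K)) ∧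
    ∀ K : List (List ℕ), IsComplex K →
      ((absAt K : ℕ) : ℤ) = |value K 1 (-1) 1| ∧ ((absAt K : ℕ) : ℤ) = |morseEuler K - 1| := by
  refine ⟨hard_of_nred (nred_sat.comp nred_abs) (fun _ _ => rfl)
    (Polynomial.X * Polynomial.X + 1) absAt_size, hard, ?_, fun K hK => ?_⟩
  · have h : NPC.Poly (fun x : List Bool =>
        sgs ((unbits (List ((ℕ × ℕ × ℕ) × ℕ)) x).getD [])) :=
      sgs_poly.comp (Poly.optGetD poly_unbits (NPC.Poly.const _))
    refine ⟨fun x => bits (sgs ((unbits (List ((ℕ × ℕ × ℕ) × ℕ)) x).getD [])),
      polyTime_bits h, fun K hK => ?_⟩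
    beta_reduce
    rw [unbits_bits, Option.getD_some, absAt_eq hK]
  · have h1 : ((absAt K : ℕ) : ℤ) = |value K 1 (-1) 1| := by
      unfold absAt
      rw [if_pos hK, Int.natCast_natAbs]
    refine ⟨h1, ?_⟩
    rw [h1, value_eq, sign_crit (fun s hs => ⟨(hK s hs).1, (hK s hs).2.1⟩), sum_card, abs_sub_comm]

end Pool.Agent.Results.MP_8e5830_lc.OnePoint
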